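import Mathlib

/-!
Arithmetic lemmas for the count.
-/

set_option autoImplicit false

namespace Pool.Agent.Y515.Cnt

theorem arith_e {q N l1 l2 : ℕ} (h17 : 17 ≤ q) (hN : 3 * q ≤ N)
    (h1 : l1 ≤ (N + 3) / (q - 1) + 2) (h2 : l2 ≤ (N + 3) / (q - 1) + 2) :
    (N + 1 + l1) / q + (N + 1 + l2) / q < 3 * ((N + 1) / q) := by
  obtain ⟨s, rfl⟩ : ∃ s, q = s + 1 := ⟨q - 1, by omega⟩
  simp only [Nat.add_sub_cancel] at h1 h2
  set M := (N + 3) / s with hM
  set q := s + 1 with hq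
  have hq0 : 0 < q := by omega
  have hs0 : 0 < s := by omega
  set a := (N + 1) / q with ha
  set z := (M + 2) / q with hz
  have ha1 : N + 1 < q * (a + 1) := by
    have := Nat.lt_mul_div_succ (N + 1) hq0
    rwa [← ha] at this
  have hz1 : M + 2 < q * (z + 1) := by
    have := Nat.lt_mul_div_succ (M + 2) hq0
    rwa [← hz] at this
  have hz2 : q * z ≤ M + 2 := by
    rw [hz]; exact Nat.mul_div_le (M + 2) q
  have hM2 : s * M ≤ N + 3 := by
    rw [hM]; exact Nat.mul_div_le (N + 3) s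
  have ha3 : 3 ≤ a := by
    rw [ha, Nat.le_div_iff_mul_le hq0]
    omega
  have key : ∀ l, l ≤ M + 2 → (N + 1 + l) / q < a + z + 2 := by
    intro l hl
    rw [Nat.div_lt_iff_lt_mul hq0]
    have : (a + z + 2) * q = q * (a + 1) + q * (z + 1) := by ring
    omega
  have k1 := key l1 h1
  have k2 := key l2 h2
  have hza : 2 * z + 2 < a := by
    rcases Nat.eq_zero_or_pos z with h0 | h0
    · omega
    · by_contra hcon
      rw [not_lt] at hcon
      have h5 : q * (a + 1) ≤ q * (2 * z + 3) := Nat.mul_le_mul_left q (by omega)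
      have h6 : s * (q * z) ≤ s * (M + 2) := Nat.mul_le_mul_left s hz2
      have h7 : s * (M + 2) = s * M + 2 * s := by ring
      have h8 : s * (q * z) ≤ q * (2 * z + 3) + 1 + 2 * s := by omega
      have h9 : s = q - 1 := by omega
      zify [show 1 ≤ q by omega] at h8 h9 h17 h0
      rw [h9] at h8
      nlinarith [mul_nonneg (sub_nonneg.2 h17) (sub_nonneg.2 h0),
        mul_nonneg (mul_nonneg (show (0:ℤ) ≤ (q:ℤ) by positivity) (sub_nonneg.2 h17)) (sub_nonneg.2 h0)]
  omega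

/-- lower bound for the exponents, all cases -/
theorem arith_E {q N l : ℕ} (h17 : 17 ≤ q) (hl : l ≤ (N + 3) / (q - 1) + 2) :
    (N + 3) / (q - 1) ≤ (N + 1 + l) / q + ((N + 3) / (q - 1) + 2 - l) / q + 1 := by
  obtain ⟨s, rfl⟩ : ∃ s, q = s + 1 := ⟨q - 1, by omega⟩
  simp only [Nat.add_sub_cancel] at *
  set M := (N + 3) / s with hM
  have hM2 : s * M ≤ N + 3 := by
    rw [hM]; exact Nat.mul_div_le (N + 3) s
  have hq0 : 0 < s + 1 := by omega
  set t := (M + 2 - l) / (s + 1) with ht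
  have ht1 : M + 2 - l < (s + 1) * (t + 1) := by
    have := Nat.lt_mul_div_succ (M + 2 - l) hq0
    rwa [← ht] at this
  have : M - (t + 1) ≤ (N + 1 + l) / (s + 1) := by
    rw [Nat.le_div_iff_mul_le hq0]
    rcases le_or_gt M (t + 1) with h | h
    · rw [Nat.sub_eq_zero_of_le h]; simp
    · have h3 : (M - (t + 1)) * (s + 1) = M * (s + 1) - (t + 1) * (s + 1) := Nat.sub_mul _ _ _
      have h4 : M * (s + 1) = s * M + M := by ring
      have h5 : (t + 1) * (s + 1) = (s + 1) * (t + 1) := by ring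
      rw [h3, h4, h5]
      omega
  omega

/-- exponents in case B, general factor -/
theorem arith_B2 {q M l E : ℕ} (h17 : 17 ≤ q) (hl : l ≤ M + 2)
    (hE : M ≤ E + (M + 2 - l) / q + 1) :
    (l + 1) + 2 * ((M + 2 - l) / q + 1) + (M + 2 - l + 1) / 2 ≤ 6 + E := by
  set x := M + 2 - l with hx
  set t := x / q with ht
  have h1 : t * 17 ≤ x := by
    calc t * 17 ≤ t * q := Nat.mul_le_mul_left t h17
      _ ≤ x := Nat.div_mul_le_self x q
  omega

/-- exponents in case B, first factor -/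
theorem arith_B1 {q M l E : ℕ} (h17 : 17 ≤ q) (hl : l + q ≤ M + 2)
    (hE : M ≤ E + (M + 2 - l) / q + 1) :
    (l + 1) + 2 * ((M + 2 - l) / q + 1) + (M + 2 - l - q + 1) / 2 + (q - 3) ≤ 6 + E := by
  obtain ⟨x, hx⟩ : ∃ x, M + 2 - l = x + q := ⟨M + 2 - l - q, by omega⟩
  have ht : (M + 2 - l) / q = x / q + 1 := by
    rw [hx, Nat.add_div_right _ (by omega)]
  rw [ht] at hE ⊢
  have hx2 : M + 2 - l - q = x := by omega
  rw [hx2]
  have h1 : x / q * 17 ≤ x := by
    calc x / q * 17 ≤ x / q * q := Nat.mul_le_mul_left _ h17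
      _ ≤ x := Nat.div_mul_le_self x q
  omega

/-- a geometric sum -/
theorem sum_half (Q : ℝ) (hQ : 4 ≤ Q) (n : ℕ) :
    ∑ x ∈ Finset.range n, 1 / Q ^ ((x + 1) / 2) ≤ 2 := by
  have h1 : ∀ x : ℕ, 1 / Q ^ ((x + 1) / 2) ≤ (1 / 2 : ℝ) ^ x := by
    intro x
    rw [one_div_pow]
    apply one_div_le_one_div_of_le (by positivity)
    calc (2 : ℝ) ^ x ≤ 2 ^ (2 * ((x + 1) / 2)) := by
          apply pow_le_pow_right₀ (by norm_num)
          omega
      _ = (2 ^ 2) ^ ((x + 1) / 2) := by rw [pow_mul]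
      _ ≤ Q ^ ((x + 1) / 2) := by
          apply pow_le_pow_left₀ (by norm_num)
          norm_num
          exact hQ
  calc _ ≤ ∑ x ∈ Finset.range n, (1 / 2 : ℝ) ^ x := Finset.sum_le_sum (fun x _ => h1 x)
    _ ≤ 2 := by
        rw [geom_sum_eq (by norm_num)]
        have : (0 : ℝ) ≤ (1 / 2) ^ n := by positivity
        rw [div_le_iff_of_neg (by norm_num)]
        linarith

end Pool.Agent.Y515.Cnt
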