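import Pool.Agent.Y709.Stm

/-!
Finite sets of polynomials of bounded degree, and first facts on fixed vectors.
-/

set_option autoImplicit false

open Polynomial Finset

namespace Pool.Agent.Y515.Cnt

variable {k : Type} [Field k] [Fintype k]

open scoped Classical in
/-- Polynomials of degree `< n` as a finite set. -/
noncomputable def PF (k : Type) [Field k] [Fintype k] (n : ℕ) : Finset k[X] :=
  Finset.univ.image (fun f : Fin n → k => ∑ i : Fin n, monomial (i : ℕ) (f i))

theorem coeff_sum_mono {n : ℕ} (f : Fin n → k) (m : ℕ) :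
    (∑ i : Fin n, monomial (i : ℕ) (f i)).coeff m = if h : m < n then f ⟨m, h⟩ else 0 := by
  rw [finsetSum_coeff]
  simp only [coeff_monomial]
  split_ifs with h
  · rw [Finset.sum_eq_single (⟨m, h⟩ : Fin n)]
    · simp
    · intro b _ hb
      rw [if_neg]
      intro hbm
      exact hb (Fin.ext hbm)
    · intro h'
      exact absurd (Finset.mem_univ _) h'
  · apply Finset.sum_eq_zero
    intro i _
    rw [if_neg]
    intro hi
    exact h (hi ▸ i.2)

theorem mem_PF {n : ℕ} {p : k[X]} : p ∈ PF k n ↔ ∀ m, n ≤ m → p.coeff m = 0 := by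
  classical
  unfold PF
  rw [Finset.mem_image]
  constructor
  · rintro ⟨f, _, rfl⟩ m hm
    rw [coeff_sum_mono, dif_neg (by omega)]
  · intro h
    refine ⟨fun i => p.coeff i, Finset.mem_univ _, ?_⟩
    ext m
    rw [coeff_sum_mono]
    split_ifs with hm
    · rfl
    · exact (h m (by omega)).symm

theorem card_PF (n : ℕ) : (PF k n).card = Fintype.card k ^ n := by
  classical
  unfold PF
  rw [Finset.card_image_of_injective]
  · simp
  · intro f g hfg
    ext i
    have := congrArg (fun p : k[X] => p.coeff i) hfg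
    simp only [coeff_sum_mono, i.2, dif_pos, Fin.eta] at this
    exact this

theorem mem_PF_succ {n : ℕ} {p : k[X]} : p ∈ PF k (n + 1) ↔ p.natDegree ≤ n := by
  rw [mem_PF, natDegree_le_iff_coeff_eq_zero]
  constructor
  · intro h m hm; exact h m hm
  · intro h m hm; exact h m hm

theorem PF_mono {m n : ℕ} (h : m ≤ n) {p : k[X]} (hp : p ∈ PF k m) : p ∈ PF k n := by
  rw [mem_PF] at *
  intro j hj
  exact hp j (by omega)

theorem zero_mem_PF (n : ℕ) : (0 : k[X]) ∈ PF k n := by
  rw [mem_PF]; intro m _; simp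

theorem add_mem_PF {n : ℕ} {p r : k[X]} (hp : p ∈ PF k n) (hr : r ∈ PF k n) :
    p + r ∈ PF k n := by
  rw [mem_PF] at *
  intro m hm
  rw [coeff_add, hp m hm, hr m hm, add_zero]

theorem sub_mem_PF {n : ℕ} {p r : k[X]} (hp : p ∈ PF k n) (hr : r ∈ PF k n) :
    p - r ∈ PF k n := by
  rw [mem_PF] at *
  intro m hm
  rw [coeff_sub, hp m hm, hr m hm, sub_zero]

theorem C_mul_mem_PF {n : ℕ} {p : k[X]} (c : k) (hp : p ∈ PF k n) : C c * p ∈ PF k n := by
  rw [mem_PF] at *
  intro m hm
  rw [coeff_C_mul, hp m hm, mul_zero]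

/-- membership through the degree -/
theorem mem_PF_of_natDegree {n : ℕ} {p : k[X]} (h : p ≠ 0 → p.natDegree < n) : p ∈ PF k n := by
  by_cases hp : p = 0
  · rw [hp]; exact zero_mem_PF n
  · rw [mem_PF]
    intro m hm
    exact coeff_eq_zero_of_natDegree_lt (lt_of_lt_of_le (h hp) hm)

theorem natDegree_lt_of_mem_PF {n : ℕ} {p : k[X]} (hp : p ∈ PF k n) (h0 : p ≠ 0) :
    p.natDegree < n := by
  by_contra h
  rw [not_lt] at h
  rw [mem_PF] at hp
  exact h0 (leadingCoeff_eq_zero.1 (hp _ h))

/-- if `β` has degree `e`, multiplication by `β` reflects the bound. -/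
theorem mem_PF_of_mul {n e : ℕ} {p b : k[X]} (hb : b ≠ 0) (he : b.natDegree = e)
    (h : p * b ∈ PF k n) : p ∈ PF k (n - e) := by
  apply mem_PF_of_natDegree
  intro hp
  have h1 := natDegree_lt_of_mem_PF h (mul_ne_zero hp hb)
  rw [natDegree_mul hp hb, he] at h1
  omega

end Pool.Agent.Y515.Cnt
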