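import Pool.Agent.Y515.Cnt.Lat

/-!
Counting vectors with short combinations.
-/

set_option autoImplicit false
set_option linter.unusedSectionVars false

open Polynomial Finset
open Pool.Agent.Y709

namespace Pool.Agent.Y515.Cnt

variable {k : Type} [Field k] [Fintype k]

theorem e3' : (3 : k[X]) = C 3 := (map_ofNat (C : k →+* k[X]) 3).symm
theorem e2' : (2 : k[X]) = C 2 := (map_ofNat (C : k →+* k[X]) 2).symm

theorem coeff_vone (w : k[X] × k[X]) (m : ℕ) :
    (vone w).coeff (m + 1) = 3 * w.1.coeff m - 2 * w.1.coeff (m + 1) + w.2.coeff (m + 1) := by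
  unfold vone
  rw [e3', e2', coeff_add, sub_mul, coeff_sub, mul_assoc, coeff_C_mul, coeff_X_mul, coeff_C_mul]

theorem coeff_vtwo (w : k[X] × k[X]) (m : ℕ) :
    (vtwo w).coeff (m + 3) = w.1.coeff m + 3 * w.2.coeff (m + 1) - 2 * w.2.coeff m := by
  unfold vtwo
  rw [e3', e2', coeff_add, sub_mul, coeff_sub, mul_assoc, coeff_C_mul, mul_assoc, coeff_C_mul,
    coeff_X_pow_mul, show m + 3 = (m + 1) + 2 by ring, coeff_X_pow_mul,
    show (m + 1) + 2 = m + 3 by ring, coeff_X_pow_mul]
  ring

theorem card_Sinf {M : ℕ} (h6 : (6 : k) ≠ 0) (hM : 1 ≤ M) (S : Finset (k[X] × k[X]))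
    (hS : ∀ w ∈ S, w.1 ∈ PF k M ∧ w.2 ∈ PF k M ∧ vone w ∈ PF k M) :
    S.card ≤ Fintype.card k ^ (2 * M - 1) := by
  classical
  obtain ⟨m, rfl⟩ : ∃ m, M = m + 1 := ⟨M - 1, by omega⟩
  have : S ⊆ (PF k m) ×ˢ (PF k (m + 1)) := by
    intro w hw
    obtain ⟨h1, h2, h3⟩ := hS w hw
    rw [Finset.mem_product]
    refine ⟨?_, h2⟩
    rw [mem_PF] at *
    intro j hj
    rcases Nat.eq_or_lt_of_le hj with h | h
    · have h4 := h3 (m + 1) le_rfl
      rw [coeff_vone, h1 (m + 1) le_rfl, h2 (m + 1) le_rfl] at h4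
      rw [← h]
      have h5 : 3 * w.1.coeff m = 0 := by linear_combination h4
      exact (mul_eq_zero.1 h5).resolve_left (three_ne_of_six h6)
    · exact h1 j h
  refine (Finset.card_le_card this).trans ?_
  rw [Finset.card_product, card_PF, card_PF, ← pow_add]
  apply Nat.pow_le_pow_right Fintype.card_pos
  omega

theorem card_Sii {M : ℕ} (h6 : (6 : k) ≠ 0) (hM : 1 ≤ M) (S : Finset (k[X] × k[X]))
    (hS : ∀ w ∈ S, w.1 ∈ PF k (M - 1) ∧ w.2 ∈ PF k M ∧ vtwo w ∈ PF k (M + 2)) :
    S.card ≤ Fintype.card k ^ (2 * M - 2) := by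
  classical
  obtain ⟨m, rfl⟩ : ∃ m, M = m + 1 := ⟨M - 1, by omega⟩
  have : S ⊆ (PF k m) ×ˢ (PF k m) := by
    intro w hw
    obtain ⟨h1, h2, h3⟩ := hS w hw
    rw [Finset.mem_product]
    rw [Nat.add_sub_cancel] at h1
    refine ⟨h1, ?_⟩
    rw [mem_PF] at *
    intro j hj
    rcases Nat.eq_or_lt_of_le hj with h | h
    · have h4 := h3 (m + 3) le_rfl
      rw [coeff_vtwo, h1 m le_rfl, h2 (m + 1) le_rfl] at h4
      rw [← h]
      have h5 : 2 * w.2.coeff m = 0 := by linear_combination (-1) * h4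
      exact (mul_eq_zero.1 h5).resolve_left (two_ne_of_six h6)
    · exact h2 j h
  refine (Finset.card_le_card this).trans ?_
  rw [Finset.card_product, card_PF, ← pow_add]
  apply Nat.pow_le_pow_right Fintype.card_pos
  omega

theorem card_Salpha {M : ℕ} (h6 : (6 : k) ≠ 0) (α : k) (S : Finset (k[X] × k[X]))
    (hS : ∀ w ∈ S, w.1 ∈ PF k M ∧ w.2 ∈ PF k M ∧ C α * vone w + vtwo w ∈ PF k M) :
    S.card ≤ Fintype.card k ^ (M + (M - 3)) := by
  classical
  set β : k[X] := C α + 3 * X ^ 2 - 2 * X ^ 3 with hβ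
  have hβ' : β = -(C 2 * X ^ 3) + (C 3 * X ^ 2 + C α) := by rw [hβ, e3', e2']; ring
  have hβd : β.natDegree = 3 := by
    have h2 := two_ne_of_six h6
    rw [hβ']
    compute_degree!
  have hβ0 : β ≠ 0 := by
    intro h
    rw [h] at hβd
    simp at hβd
  have hfib : ∀ p ∈ S.image Prod.fst, (S.filter (fun w => w.1 = p)).card ≤
      Fintype.card k ^ (M - 3) := by
    intro p _
    rcases (S.filter (fun w => w.1 = p)).eq_empty_or_nonempty with h0 | ⟨w0, hw0⟩
    · rw [h0]; simp
    · rw [← card_PF]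
      apply Finset.card_le_card_of_injOn (fun w => w.2 - w0.2)
      · intro w hw
        rw [Finset.mem_coe, Finset.mem_filter] at hw
        rw [Finset.mem_filter] at hw0
        rw [Finset.mem_coe]
        apply mem_PF_of_mul hβ0 hβd
        have h1 := (hS w hw.1).2.2
        have h2 := (hS w0 hw0.1).2.2
        have h3 := sub_mem_PF h1 h2
        have h4 : (w.2 - w0.2) * β = C α * vone w + vtwo w - (C α * vone w0 + vtwo w0) := by
          unfold vone vtwo
          rw [hw.2, hw0.2, hβ]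
          ring
        rw [h4]
        exact h3
      · intro w hw z hz h
        rw [Finset.mem_coe, Finset.mem_filter] at hw hz
        have h5 : w.2 = z.2 := by simpa using h
        exact Prod.ext (by rw [hw.2, hz.2]) h5
  refine (Finset.card_le_mul_card_image S _ hfib).trans ?_
  rw [pow_add, mul_comm]
  apply Nat.mul_le_mul_right
  rw [← card_PF]
  apply Finset.card_le_card
  intro p hp
  rw [Finset.mem_image] at hp
  obtain ⟨w, hw, rfl⟩ := hp
  exact (hS w hw).1

theorem card_Sboth {M : ℕ} (h6 : (6 : k) ≠ 0) (S : Finset (k[X] × k[X]))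
    (hS : ∀ w ∈ S, vone w ∈ PF k M ∧ vtwo w ∈ PF k M) :
    S.card ≤ Fintype.card k ^ (2 * (M - 2)) := by
  classical
  have : S.card ≤ ((PF k (M - 2)) ×ˢ (PF k (M - 2))).card := by
    apply Finset.card_le_card_of_injOn
      (fun w => (X * w.1 + (3 - 2 * X) * w.2, -(X + 2) * w.1 + (2 * X + 1) * w.2))
    · intro w hw
      obtain ⟨h1, h2⟩ := hS w hw
      rw [Finset.mem_coe, Finset.mem_product]
      constructor
      · simp only
        apply mem_PF_of_mul (b := X ^ 2) (pow_ne_zero 2 X_ne_zero) (natDegree_X_pow 2)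
        have : (X * w.1 + (3 - 2 * X) * w.2) * X ^ 2 = vtwo w := by unfold vtwo; ring
        rw [this]
        exact h2
      · simp only
        have hX1 : (X - 1 : k[X]) ≠ 0 := by
          have := X_sub_C_ne_zero (1 : k)
          rwa [C_1] at this
        have hd : ((X - 1 : k[X]) ^ 2).natDegree = 2 := by
          rw [natDegree_pow]
          have : (X - 1 : k[X]) = X - C 1 := by rw [C_1]
          rw [this, natDegree_X_sub_C]
        apply mem_PF_of_mul (b := (X - 1) ^ 2) (pow_ne_zero 2 hX1) hd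
        have : (-(X + 2) * w.1 + (2 * X + 1) * w.2) * (X - 1) ^ 2 = vone w - vtwo w := by
          unfold vone vtwo; ring
        rw [this]
        exact sub_mem_PF h1 h2
    · intro w _ z _ h
      simp only [Prod.mk.injEq] at h
      obtain ⟨g1, g2⟩ := h
      have t1 : w.1 = z.1 := by
        apply mul_left_cancel₀ (six_ne h6)
        linear_combination (2 * X + 1) * g1 - (3 - 2 * X) * g2
      have t2 : w.2 = z.2 := by
        apply mul_left_cancel₀ (six_ne h6)
        linear_combination (X + 2) * g1 + X * g2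
      exact Prod.ext t1 t2
  rw [Finset.card_product, card_PF, ← pow_add] at this
  rw [two_mul]
  exact this

/-- union over the projective line -/
theorem card_Sone {M : ℕ} (h6 : (6 : k) ≠ 0) (hM : 3 ≤ M) (S : Finset (k[X] × k[X]))
    (hS : ∀ w ∈ S, w.1 ∈ PF k M ∧ w.2 ∈ PF k M ∧
      (vone w ∈ PF k M ∨ ∃ α : k, C α * vone w + vtwo w ∈ PF k M)) :
    S.card ≤ Fintype.card k ^ (2 * M - 1) + Fintype.card k ^ (2 * M - 2) := by
  classical
  have hsub : S ⊆ S.filter (fun w => vone w ∈ PF k M) ∪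
      (Finset.univ : Finset k).biUnion (fun α => S.filter
        (fun w => C α * vone w + vtwo w ∈ PF k M)) := by
    intro w hw
    rw [Finset.mem_union, Finset.mem_biUnion]
    rcases (hS w hw).2.2 with h | ⟨α, h⟩
    · left; rw [Finset.mem_filter]; exact ⟨hw, h⟩
    · right
      refine ⟨α, Finset.mem_univ _, ?_⟩
      rw [Finset.mem_filter]; exact ⟨hw, h⟩
  refine (Finset.card_le_card hsub).trans ((Finset.card_union_le _ _).trans ?_)
  apply Nat.add_le_add
  · apply card_Sinf h6 (by omega)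
    intro w hw
    rw [Finset.mem_filter] at hw
    exact ⟨(hS w hw.1).1, (hS w hw.1).2.1, hw.2⟩
  · refine (Finset.card_biUnion_le).trans ?_
    have h1 : ∀ α ∈ (Finset.univ : Finset k),
        (S.filter (fun w => C α * vone w + vtwo w ∈ PF k M)).card ≤
        Fintype.card k ^ (2 * M - 3) := by
      intro α _
      have := card_Salpha (M := M) h6 α (S.filter (fun w => C α * vone w + vtwo w ∈ PF k M))
        (fun w hw => by
          rw [Finset.mem_filter] at hw
          exact ⟨(hS w hw.1).1, (hS w hw.1).2.1, hw.2⟩)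
      have h2 : M + (M - 3) = 2 * M - 3 := by omega
      rwa [h2] at this
    refine (Finset.sum_le_sum h1).trans ?_
    rw [Finset.sum_const, smul_eq_mul, Finset.card_univ, ← pow_succ']
    apply le_of_eq
    congr 1
    omega

end Pool.Agent.Y515.Cnt
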