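import Pool.Agent.Y515.Cnt.Basic

/-!
Degree bounds and independence for fixed vectors.
-/

set_option autoImplicit false
set_option linter.unusedSectionVars false

open Polynomial Finset
open Pool.Agent.Y709

namespace Pool.Agent.Y515.Cnt

variable {k : Type} [Field k] [Fintype k]

theorem natDegree_cart {q : ℕ} (hq : 0 < q) {g : k[X]} (h : cart q g ≠ 0) :
    q * (cart q g).natDegree + (q - 1) ≤ g.natDegree := by
  have h1 : (cart q g).coeff (cart q g).natDegree ≠ 0 := by
    rw [coeff_natDegree]; exact leadingCoeff_ne_zero.2 h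
  rw [coeff_cart hq] at h1
  exact le_natDegree_of_ne_zero h1

theorem natDegree_vone_le (w : k[X] × k[X]) :
    (vone w).natDegree ≤ max (w.1.natDegree + 1) w.2.natDegree := by
  unfold vone
  refine (natDegree_add_le _ _).trans (max_le_max ?_ le_rfl)
  refine natDegree_mul_le.trans ?_
  have : (3 * X - 2 : k[X]).natDegree ≤ 1 := by
    have h3 : (3 * X - 2 : k[X]) = C 3 * X - C 2 := by
      rw [map_ofNat (C : k →+* k[X]) 3, map_ofNat (C : k →+* k[X]) 2]
    rw [h3]
    compute_degree
  omega

theorem natDegree_vtwo_le (w : k[X] × k[X]) :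
    (vtwo w).natDegree ≤ 3 + max w.1.natDegree w.2.natDegree := by
  unfold vtwo
  refine (natDegree_add_le _ _).trans (max_le ?_ ?_)
  · refine natDegree_mul_le.trans ?_
    rw [natDegree_X_pow]
    have := le_max_left w.1.natDegree w.2.natDegree
    omega
  · refine natDegree_mul_le.trans ?_
    have : (3 * X ^ 2 - 2 * X ^ 3 : k[X]).natDegree ≤ 3 := by
      have h3 : (3 * X ^ 2 - 2 * X ^ 3 : k[X]) = C 3 * X ^ 2 - C 2 * X ^ 3 := by
        rw [map_ofNat (C : k →+* k[X]) 3, map_ofNat (C : k →+* k[X]) 2]
      rw [h3]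
      compute_degree
    have := le_max_right w.1.natDegree w.2.natDegree
    omega

theorem natDegree_six_mul (h6 : (6 : k) ≠ 0) (p : k[X]) : (6 * p).natDegree = p.natDegree := by
  have h : (6 * p : k[X]) = C 6 * p := by
    congr 1
  rw [h]
  exact natDegree_C_mul h6

theorem six_ne (h6 : (6 : k) ≠ 0) : (6 : k[X]) ≠ 0 := by
  have h : (6 : k[X]) = C 6 := (map_ofNat (C : k →+* k[X]) 6).symm
  rw [h]
  exact C_ne_zero.2 h6

/-- Part (0): fixed vectors have small degree. -/
theorem fixed_bound {q N : ℕ} (hq : 2 ≤ q) (h6 : (6 : k) ≠ 0) {D : k[X]} (hD : D.natDegree ≤ N)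
    {w : k[X] × k[X]} (hw : IsFixed q D w) :
    w.1 ∈ PF k ((N + 1) / (q - 1)) ∧ w.2 ∈ PF k ((N + 3) / (q - 1)) := by
  obtain ⟨h1, h2⟩ := hw
  have hq0 : 0 < q := by omega
  have hA1 : w.1 ≠ 0 → q * w.1.natDegree + (q - 1) ≤ N + max (w.1.natDegree + 1) w.2.natDegree := by
    intro hne
    have h3 : cart q (D * vone w) ≠ 0 := by
      rw [h1]; exact mul_ne_zero (six_ne h6) hne
    have h4 := natDegree_cart hq0 h3
    rw [h1, natDegree_six_mul h6] at h4
    refine h4.trans (natDegree_mul_le.trans ?_)
    exact Nat.add_le_add hD (natDegree_vone_le w)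
  have hA0 : w.2 ≠ 0 → q * w.2.natDegree + (q - 1) ≤
      N + (3 + max w.1.natDegree w.2.natDegree) := by
    intro hne
    have h3 : cart q (D * vtwo w) ≠ 0 := by
      rw [h2]; exact mul_ne_zero (six_ne h6) hne
    have h4 := natDegree_cart hq0 h3
    rw [h2, natDegree_six_mul h6] at h4
    refine h4.trans (natDegree_mul_le.trans ?_)
    exact Nat.add_le_add hD (natDegree_vtwo_le w)
  obtain ⟨s, rfl⟩ : ∃ s, q = s + 1 := ⟨q - 1, by omega⟩
  have hs : 1 ≤ s := by omega
  simp only [Nat.add_sub_cancel] at *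
  set d1 := w.1.natDegree with hd1
  set d0 := w.2.natDegree with hd0
  have e1 : (s + 1) * d1 = s * d1 + d1 := by ring
  have e0 : (s + 1) * d0 = s * d0 + d0 := by ring
  rw [e1] at hA1
  rw [e0] at hA0
  constructor
  · apply mem_PF_of_natDegree
    intro hne
    have hA := hA1 hne
    have key : s * (d1 + 1) ≤ N + 1 := by
      rw [Nat.mul_add, Nat.mul_one]
      rcases le_or_gt d0 (d1 + 1) with h | h
      · rw [max_eq_left h] at hA
        omega
      · have hne2 : w.2 ≠ 0 := by
          intro h0
          rw [hd0, h0] at h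
          simp at h
        have hB := hA0 hne2
        rw [max_eq_right (by omega)] at hB
        have h5 : s * (d1 + 2) ≤ s * d0 := Nat.mul_le_mul_left s (by omega)
        rw [Nat.mul_add] at h5
        omega
    have : d1 + 1 ≤ (N + 1) / s := by
      rw [Nat.le_div_iff_mul_le hs, mul_comm]
      exact key
    omega
  · apply mem_PF_of_natDegree
    intro hne
    have hB := hA0 hne
    have key : s * (d0 + 1) ≤ N + 3 := by
      rw [Nat.mul_add, Nat.mul_one]
      rcases le_or_gt d1 d0 with h | h
      · rw [max_eq_right h] at hB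
        omega
      · have hne1 : w.1 ≠ 0 := by
          intro h0
          rw [hd1, h0] at h
          simp at h
        have hA := hA1 hne1
        rw [max_eq_left (by omega)] at hA
        have h5 : s * (d0 + 1) ≤ s * d1 := Nat.mul_le_mul_left s (by omega)
        rw [Nat.mul_add] at h5
        omega
    have : d0 + 1 ≤ (N + 3) / s := by
      rw [Nat.le_div_iff_mul_le hs, mul_comm]
      exact key
    omega

theorem isFixed_smul {q : ℕ} (hq : 0 < q) {D : k[X]} {w : k[X] × k[X]} (hw : IsFixed q D w)
    (c : k) : IsFixed q D (C c * w.1, C c * w.2) := by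
  obtain ⟨h1, h2⟩ := hw
  constructor
  · have : D * vone (C c * w.1, C c * w.2) = C c * (D * vone w) := by
      unfold vone; ring
    rw [this, cart_C_mul hq, h1]
    ring
  · have : D * vtwo (C c * w.1, C c * w.2) = C c * (D * vtwo w) := by
      unfold vtwo; ring
    rw [this, cart_C_mul hq, h2]
    ring

end Pool.Agent.Y515.Cnt
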