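import Pool.Agent.Y515.Cnt.Fixed

/-!
Independence for fixed vectors.
-/

set_option autoImplicit false
set_option linter.unusedSectionVars false

open Polynomial Finset
open Pool.Agent.Y709

namespace Pool.Agent.Y515.Cnt

variable {k : Type} [Field k] [Fintype k]

theorem two_ne_of_six (h6 : (6 : k) ≠ 0) : (2 : k) ≠ 0 := by
  intro h
  apply h6
  have : (6 : k) = 2 * 3 := by norm_num
  rw [this, h, zero_mul]

theorem three_ne_of_six (h6 : (6 : k) ≠ 0) : (3 : k) ≠ 0 := by
  intro h
  apply h6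
  have : (6 : k) = 2 * 3 := by norm_num
  rw [this, h, mul_zero]

/-- the key polynomial identity is impossible -/
theorem key_impossible {q : ℕ} (hq : Fintype.card k = q) (h17 : 17 ≤ q) (h6 : (6 : k) ≠ 0)
    (g b : k) (hg : g ≠ 0) (hb : b ≠ 0) (i : ℕ) (hi : i ≤ 3)
    (h : (C g * X ^ i : k[X]) ^ q * ((3 * X - 2) * C b - C g * X ^ i) +
      (C b) ^ q * (X ^ 3 * C b - (3 * X ^ 2 - 2 * X ^ 3) * (C g * X ^ i)) = 0) : False := by
  have e3 : (3 : k[X]) = C 3 := (map_ofNat (C : k →+* k[X]) 3).symm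
  have e2 : (2 : k[X]) = C 2 := (map_ofNat (C : k →+* k[X]) 2).symm
  have hgq : g ^ q = g := by rw [← hq]; exact FiniteField.pow_card g
  have hbq : b ^ q = b := by rw [← hq]; exact FiniteField.pow_card b
  have h' : C (3 * g * b) * X ^ (i * q + 1) - C (2 * g * b) * X ^ (i * q) -
      C (g * g) * X ^ (i * q + i) + (C (b * b) * X ^ 3 - C (3 * b * g) * X ^ (i + 2) +
      C (2 * b * g) * X ^ (i + 3)) = 0 := by
    rw [← h, mul_pow, ← C_pow, ← C_pow, hgq, hbq, ← pow_mul, e3, e2]
    simp only [C_mul, pow_add]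
    ring
  rcases Nat.eq_zero_or_pos i with hi0 | hi0
  · subst hi0
    have h2 := congrArg (fun p : k[X] => p.coeff 2) h'
    simp only [coeff_add, coeff_sub, coeff_C_mul, coeff_X_pow, coeff_zero] at h2
    norm_num at h2
    rcases h2 with h2 | h2
    · rcases h2 with h2 | h2
      · exact three_ne_of_six h6 h2
      · exact hb h2
    · exact hg h2
  · have hqi : 17 ≤ i * q := le_trans h17 (Nat.le_mul_of_pos_left q hi0)
    have h2 := congrArg (fun p : k[X] => p.coeff (i * q)) h'
    simp only [coeff_add, coeff_sub, coeff_C_mul, coeff_X_pow, coeff_zero] at h2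
    rw [if_neg (by omega : ¬ i * q = i * q + 1), if_neg (by omega : ¬ i * q = i * q + i),
      if_neg (by omega : ¬ i * q = 3), if_neg (by omega : ¬ i * q = i + 2),
      if_neg (by omega : ¬ i * q = i + 3)] at h2
    simp at h2
    rcases h2 with h2 | h2
    · rcases h2 with h2 | h2
      · exact two_ne_of_six h6 h2
      · exact hg h2
    · exact hb h2

/-- Part (1): independence over the `q`-th powers. -/
theorem indep {q : ℕ} (hq : Fintype.card k = q) (h17 : 17 ≤ q) (h6 : (6 : k) ≠ 0)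
    {D : k[X]} {w : k[X] × k[X]} (hw0 : w ≠ 0) (hw : IsFixed q D w)
    (a b : k[X]) (hab : expand k q a * vone w + expand k q b * vtwo w = 0) :
    a = 0 ∧ b = 0 := by
  classical
  by_contra hcon
  have hq0 : 0 < q := by omega
  -- divide by the gcd
  obtain ⟨a', b', g, hg, hcop, ha, hb⟩ : ∃ a' b' g : k[X], g ≠ 0 ∧ IsCoprime a' b' ∧
      a = g * a' ∧ b = g * b' := by
    have hg : EuclideanDomain.gcd a b ≠ 0 := by
      intro h0
      rw [EuclideanDomain.gcd_eq_zero_iff] at h0
      exact hcon h0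
    obtain ⟨a', ha'⟩ := EuclideanDomain.gcd_dvd_left a b
    obtain ⟨b', hb'⟩ := EuclideanDomain.gcd_dvd_right a b
    refine ⟨a', b', EuclideanDomain.gcd a b, hg, ?_, ha', hb'⟩
    have hbez := EuclideanDomain.gcd_eq_gcd_ab a b
    refine ⟨EuclideanDomain.gcdA a b, EuclideanDomain.gcdB a b, ?_⟩
    apply mul_left_cancel₀ hg
    conv_rhs => rw [mul_one, hbez]
    calc _ = (EuclideanDomain.gcd a b * a') * EuclideanDomain.gcdA a b +
          (EuclideanDomain.gcd a b * b') * EuclideanDomain.gcdB a b := by ring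
      _ = _ := by rw [← ha', ← hb']
  have hcore : expand k q a' * vone w + expand k q b' * vtwo w = 0 := by
    have h1 : expand k q g ≠ 0 := by
      intro h0
      exact hg ((expand_eq_zero hq0).1 h0)
    apply (mul_eq_zero.1 _).resolve_left h1
    rw [← hab, ha, hb, map_mul, map_mul]
    ring
  have hlin : a' * w.1 + b' * w.2 = 0 := by
    have h1 : cart q (D * (expand k q a' * vone w + expand k q b' * vtwo w)) = 0 := by
      rw [hcore, mul_zero, cart_zero hq0]
    have h2 : D * (expand k q a' * vone w + expand k q b' * vtwo w) =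
        expand k q a' * (D * vone w) + expand k q b' * (D * vtwo w) := by ring
    rw [h2, cart_add hq0, cart_expand_mul hq0, cart_expand_mul hq0, hw.1, hw.2] at h1
    apply (mul_eq_zero.1 _).resolve_left (six_ne h6)
    rw [← h1]; ring
  obtain ⟨u, v, huv⟩ := id hcop
  obtain ⟨y, hy1, hy2⟩ : ∃ y : k[X], w.1 = y * b' ∧ w.2 = - (y * a') := by
    refine ⟨v * w.1 - u * w.2, ?_, ?_⟩
    · linear_combination (-w.1) * huv + u * hlin
    · linear_combination (-w.2) * huv + v * hlin
  have hy : y ≠ 0 := by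
    rintro rfl
    apply hw0
    ext1
    · rw [hy1]; simp
    · rw [hy2]; simp
  have hv1 : vone w = y * ((3 * X - 2) * b' - a') := by
    unfold vone; rw [hy1, hy2]; ring
  have hv2 : vtwo w = y * (X ^ 3 * b' - (3 * X ^ 2 - 2 * X ^ 3) * a') := by
    unfold vtwo; rw [hy1, hy2]; ring
  have hE : a' ^ q * ((3 * X - 2) * b' - a') +
      b' ^ q * (X ^ 3 * b' - (3 * X ^ 2 - 2 * X ^ 3) * a') = 0 := by
    rw [hv1, hv2] at hcore
    subst hq
    rw [FiniteField.expand_card, FiniteField.expand_card] at hcore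
    apply (mul_eq_zero.1 _).resolve_left hy
    rw [← hcore]; ring
  -- b' is a unit
  obtain ⟨s, hs⟩ : ∃ s, q = s + 1 := ⟨q - 1, by omega⟩
  have hbu : IsUnit b' := by
    have h1 : b' ∣ a' ^ (q + 1) := by
      refine ⟨a' ^ q * (3 * X - 2) + b' ^ s * (X ^ 3 * b' - (3 * X ^ 2 - 2 * X ^ 3) * a'), ?_⟩
      have h3 : b' ^ q = b' ^ s * b' := by rw [hs, pow_succ]
      rw [h3] at hE
      rw [pow_succ]
      linear_combination (-1) * hE
    have h2 : IsCoprime b' (a' ^ (q + 1)) := (hcop.symm).pow_right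
    exact h2.isUnit_of_dvd' dvd_rfl h1
  obtain ⟨β, hβu, hβ⟩ := Polynomial.isUnit_iff.1 hbu
  have hβ0 : β ≠ 0 := hβu.ne_zero
  -- a' divides X^3
  have ha3 : a' ∣ X ^ 3 := by
    have h1 : a' ∣ X ^ 3 * b' ^ (q + 1) := by
      refine ⟨b' ^ q * (3 * X ^ 2 - 2 * X ^ 3) - a' ^ s * ((3 * X - 2) * b' - a'), ?_⟩
      have h3 : a' ^ q = a' ^ s * a' := by rw [hs, pow_succ]
      rw [h3] at hE
      rw [pow_succ]
      linear_combination hE
    exact (hcop.pow_right (n := q + 1)).dvd_of_dvd_mul_right h1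
  obtain ⟨i, hi, hassoc⟩ := (dvd_prime_pow Polynomial.prime_X 3).1 ha3
  obtain ⟨U, hU⟩ := hassoc.symm
  obtain ⟨γ, hγu, hγ⟩ := Polynomial.isUnit_iff.1 U.isUnit
  have hγ0 : γ ≠ 0 := hγu.ne_zero
  have ha' : a' = C γ * X ^ i := by
    rw [← hU, ← hγ, mul_comm]
  rw [ha', ← hβ] at hE
  exact key_impossible hq h17 h6 γ β hγ0 hβ0 i hi hE

/-- `w` is determined by `(vone w, vtwo w)`. -/
theorem v_inj (h6 : (6 : k) ≠ 0) {w z : k[X] × k[X]} (h1 : vone w = vone z)
    (h2 : vtwo w = vtwo z) : w = z := by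
  have h1' : vone (w - z) = 0 := by
    have : vone (w - z) = vone w - vone z := by
      unfold vone; simp only [Prod.fst_sub, Prod.snd_sub]; ring
    rw [this, h1, sub_self]
  have h2' : vtwo (w - z) = 0 := by
    have : vtwo (w - z) = vtwo w - vtwo z := by
      unfold vtwo; simp only [Prod.fst_sub, Prod.snd_sub]; ring
    rw [this, h2, sub_self]
  set t := w - z with ht
  have hX : (X : k[X]) ≠ 0 := X_ne_zero
  have hX1 : (X - 1 : k[X]) ≠ 0 := by
    have := X_sub_C_ne_zero (1 : k)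
    rwa [C_1] at this
  have e1 : X * t.1 + (3 - 2 * X) * t.2 = 0 := by
    have : X ^ 2 * (X * t.1 + (3 - 2 * X) * t.2) = 0 := by
      rw [← h2']; unfold vtwo; ring
    exact (mul_eq_zero.1 this).resolve_left (pow_ne_zero 2 hX)
  have e2 : -(X + 2) * t.1 + (2 * X + 1) * t.2 = 0 := by
    have : (X - 1) ^ 2 * (-(X + 2) * t.1 + (2 * X + 1) * t.2) = 0 := by
      have h3 : vone t - vtwo t = 0 := by rw [h1', h2', sub_self]
      rw [← h3]; unfold vone vtwo; ring
    exact (mul_eq_zero.1 this).resolve_left (pow_ne_zero 2 hX1)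
  have t1 : t.1 = 0 := by
    apply (mul_eq_zero.1 _).resolve_left (six_ne h6)
    linear_combination (2 * X + 1) * e1 - (3 - 2 * X) * e2
  have t2 : t.2 = 0 := by
    apply (mul_eq_zero.1 _).resolve_left (six_ne h6)
    linear_combination (X + 2) * e1 + X * e2
  have : t = 0 := Prod.ext t1 t2
  rw [ht] at this
  exact sub_eq_zero.1 this

end Pool.Agent.Y515.Cnt
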