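import Pool.Agent.Y515.Cnt.Indep
import Pool.Agent.Y515.Cnt.Arith

/-!
Lattice data of a fixed vector, and the number of `D` fixing it.
-/

set_option autoImplicit false
set_option linter.unusedSectionVars false

open Polynomial Finset
open Pool.Agent.Y709

namespace Pool.Agent.Y515.Cnt

variable {k : Type} [Field k] [Fintype k]

/-- The data attached to `w` by part L1. -/
structure Dat (k : Type) [Field k] where
  n1 : k[X]
  n2 : k[X]
  a : k[X]
  b : k[X]
  c : k[X]
  d : k[X]

/-- The properties of the data. -/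
structure IsDat (q N : ℕ) (v1 v2 : k[X]) (x : Dat k) : Prop where
  h1 : x.n1 ≠ 0
  h2 : x.n2 ≠ 0
  hlt : x.n1.natDegree < x.n2.natDegree
  e1 : v1 = expand k q x.a * x.n1 + expand k q x.b * x.n2
  e2 : v2 = expand k q x.c * x.n1 + expand k q x.d * x.n2
  ha : x.a = 0 ∨ q * x.a.natDegree + x.n1.natDegree ≤ v1.natDegree
  hb : x.b = 0 ∨ q * x.b.natDegree + x.n2.natDegree ≤ v1.natDegree
  hc : x.c = 0 ∨ q * x.c.natDegree + x.n1.natDegree ≤ v2.natDegree
  hd : x.d = 0 ∨ q * x.d.natDegree + x.n2.natDegree ≤ v2.natDegree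
  hbd : x.b ≠ 0 ∨ x.d ≠ 0
  hl1 : x.n1.natDegree ≤ v1.natDegree
  hl2 : x.n2.natDegree ≤ v1.natDegree ∨ x.n2.natDegree ≤ v2.natDegree
  hcount : (N + 1 + x.n1.natDegree) / q + (N + 1 + x.n2.natDegree) / q < 3 * ((N + 1) / q) →
      Nat.card {D : k[X] // D.natDegree ≤ N ∧ cart q (D * v1) = 0 ∧ cart q (D * v2) = 0} *
        Nat.card k ^ ((N + 1 + x.n1.natDegree) / q + (N + 1 + x.n2.natDegree) / q) =
        Nat.card k ^ (N + 1)

theorem exists_dat {q : ℕ} (hL : LatProp k q) (N : ℕ) {v1 v2 : k[X]}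
    (hind : ∀ a b : k[X], expand k q a * v1 + expand k q b * v2 = 0 → a = 0 ∧ b = 0) :
    ∃ x : Dat k, IsDat q N v1 v2 x := by
  obtain ⟨n1, n2, a, b, c, d, h1, h2, hle, hmod, e1, e2, ha, hb, hc, hd, hcount⟩ :=
    hL v1 v2 hind
  have hlt : n1.natDegree < n2.natDegree := by
    rcases Nat.lt_or_ge n1.natDegree n2.natDegree with h | h
    · exact h
    · exfalso
      apply hmod
      have : n1.natDegree = n2.natDegree := le_antisymm hle h
      rw [this]
  have hv1 : v1 ≠ 0 := by
    intro h0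
    have := hind 1 0 (by rw [h0]; simp)
    exact one_ne_zero this.1
  have hbd : b ≠ 0 ∨ d ≠ 0 := by
    by_contra hcon
    push Not at hcon
    obtain ⟨hb0, hd0⟩ := hcon
    have h3 := hind c (-a) (by
      rw [e1, e2, hb0, hd0, map_neg]
      simp only [map_zero]
      ring)
    have ha0 : a = 0 := neg_eq_zero.1 h3.2
    apply hv1
    rw [e1, ha0, hb0]
    simp
  have hl1 : n1.natDegree ≤ v1.natDegree := by
    by_cases ha0 : a = 0
    · have hb0 : b ≠ 0 := by
        intro hb0
        apply hv1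
        rw [e1, ha0, hb0]; simp
      have := hb.resolve_left hb0
      omega
    · have := ha.resolve_left ha0
      omega
  have hl2 : n2.natDegree ≤ v1.natDegree ∨ n2.natDegree ≤ v2.natDegree := by
    rcases hbd with h | h
    · left
      have := hb.resolve_left h
      omega
    · right
      have := hd.resolve_left h
      omega
  exact ⟨⟨n1, n2, a, b, c, d⟩, h1, h2, hlt, e1, e2, ha, hb, hc, hd, hbd, hl1, hl2, hcount N⟩

/-- fixed `D`'s of a given `w` are at most a coset of the kernel -/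
theorem count_fixed_le {q : ℕ} (hq : Fintype.card k = q) (hq0 : 0 < q) (N : ℕ)
    (w : k[X] × k[X]) (x : Dat k) (hx : IsDat q N (vone w) (vtwo w) x)
    (he : (N + 1 + x.n1.natDegree) / q + (N + 1 + x.n2.natDegree) / q < 3 * ((N + 1) / q))
    (S : Finset k[X]) (hS : ∀ D ∈ S, D.natDegree ≤ N ∧ IsFixed q D w) :
    (S.card : ℝ) ≤ (q : ℝ) ^ (N + 1) /
      (q : ℝ) ^ ((N + 1 + x.n1.natDegree) / q + (N + 1 + x.n2.natDegree) / q) := by
  classical
  have hcnt := hx.hcount he
  set e := (N + 1 + x.n1.natDegree) / q + (N + 1 + x.n2.natDegree) / q with hedef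
  have hqk : Nat.card k = q := by rw [Nat.card_eq_fintype_card, hq]
  rw [hqk] at hcnt
  have hqR : (0 : ℝ) < (q : ℝ) := by exact_mod_cast hq0
  rw [le_div_iff₀ (by positivity)]
  have hle : S.card ≤ Nat.card {D : k[X] // D.natDegree ≤ N ∧ cart q (D * vone w) = 0 ∧
      cart q (D * vtwo w) = 0} := by
    rcases S.eq_empty_or_nonempty with h0 | ⟨D0, hD0⟩
    · rw [h0]; simp
    · have hfin : Set.Finite {D : k[X] | D.natDegree ≤ N ∧ cart q (D * vone w) = 0 ∧
          cart q (D * vtwo w) = 0} := by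
        apply Set.Finite.subset (PF k (N + 1)).finite_toSet
        intro D hD
        rw [Finset.mem_coe, mem_PF_succ]
        exact hD.1
      have : Nat.card {D : k[X] // D.natDegree ≤ N ∧ cart q (D * vone w) = 0 ∧
          cart q (D * vtwo w) = 0} = hfin.toFinset.card := by
        rw [← Set.ncard_eq_toFinset_card _ hfin]
        rfl
      rw [this]
      apply Finset.card_le_card_of_injOn (fun D => D - D0)
      · intro D hD
        have h1 := hS D hD
        have h2 := hS D0 hD0
        simp only [Set.Finite.coe_toFinset, Set.mem_setOf_eq]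
        refine ⟨?_, ?_, ?_⟩
        · exact (natDegree_sub_le _ _).trans (max_le h1.1 h2.1)
        · rw [sub_mul, cart_sub hq0, h1.2.1, h2.2.1, sub_self]
        · rw [sub_mul, cart_sub hq0, h1.2.2, h2.2.2, sub_self]
      · intro D _ D' _ h
        simpa using h
  calc (S.card : ℝ) * (q : ℝ) ^ e ≤
      ((Nat.card {D : k[X] // D.natDegree ≤ N ∧ cart q (D * vone w) = 0 ∧
      cart q (D * vtwo w) = 0} : ℕ) : ℝ) * (q : ℝ) ^ e := by
        apply mul_le_mul_of_nonneg_right _ (by positivity)
        exact_mod_cast hle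
    _ = (q : ℝ) ^ (N + 1) := by exact_mod_cast hcnt

end Pool.Agent.Y515.Cnt
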