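import Pool.Agent.Y515.Cnt.Lat

/-!
The sum over the vectors with a very short first minimum.
-/

set_option autoImplicit false
set_option linter.unusedSectionVars false

open Polynomial Finset
open Pool.Agent.Y709

namespace Pool.Agent.Y515.Cnt

variable {k : Type} [Field k] [Fintype k]

theorem mem_PF_quot {q l m B : ℕ} (hq0 : 0 < q) {p : k[X]}
    (h : p = 0 ∨ q * p.natDegree + l ≤ m) (hm : m ≤ B) : p ∈ PF k ((B - l) / q + 1) := by
  rcases h with h | h
  · rw [h]; exact zero_mem_PF _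
  · rw [mem_PF_succ, Nat.le_div_iff_mul_le hq0, mul_comm]
    omega

theorem fiber_card {q N M i j : ℕ} (hq : Fintype.card k = q) (h17 : 17 ≤ q) (h6 : (6 : k) ≠ 0)
    (T : Finset (k[X] × k[X])) (x : k[X] × k[X] → Dat k)
    (hdat : ∀ w ∈ T, IsDat q N (vone w) (vtwo w) (x w))
    (hv1 : ∀ w ∈ T, (vone w).natDegree ≤ M + 2) (hv2 : ∀ w ∈ T, (vtwo w).natDegree ≤ M + 2)
    (hi : ∀ w ∈ T, (x w).n1.natDegree = i) (hj : ∀ w ∈ T, (x w).n2.natDegree = j) :
    (T.card : ℝ) ≤ (q : ℝ) ^ ((i + 1) + 2 * ((M + 2 - i) / q + 1)) *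
      (q : ℝ) ^ ((j + 1) + 2 * ((M + 2 - j) / q + 1)) := by
  classical
  have hq0 : 0 < q := by omega
  set ti := (M + 2 - i) / q with hti
  set tj := (M + 2 - j) / q with htj
  have key : T.card ≤ (((PF k (i + 1)) ×ˢ (PF k (j + 1))) ×ˢ
      (((PF k (ti + 1)) ×ˢ (PF k (tj + 1))) ×ˢ ((PF k (ti + 1)) ×ˢ (PF k (tj + 1))))).card := by
    apply Finset.card_le_card_of_injOn
      (fun w => (((x w).n1, (x w).n2), (((x w).a, (x w).b), ((x w).c, (x w).d))))
    · intro w hw
      have hw' : w ∈ T := hw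
      have hd := hdat w hw'
      rw [Finset.mem_coe]
      simp only [Finset.mem_product]
      refine ⟨⟨?_, ?_⟩, ⟨?_, ?_⟩, ⟨?_, ?_⟩⟩
      · rw [mem_PF_succ, hi w hw']
      · rw [mem_PF_succ, hj w hw']
      · rw [hti, ← hi w hw']; exact mem_PF_quot hq0 hd.ha (hv1 w hw')
      · rw [htj, ← hj w hw']; exact mem_PF_quot hq0 hd.hb (hv1 w hw')
      · rw [hti, ← hi w hw']; exact mem_PF_quot hq0 hd.hc (hv2 w hw')
      · rw [htj, ← hj w hw']; exact mem_PF_quot hq0 hd.hd (hv2 w hw')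
    · intro w hw z hz hwz
      simp only [Prod.mk.injEq] at hwz
      obtain ⟨⟨e1, e2⟩, ⟨e3, e4⟩, e5, e6⟩ := hwz
      have hdw := hdat w hw
      have hdz := hdat z hz
      apply v_inj h6
      · rw [hdw.e1, hdz.e1, e1, e2, e3, e4]
      · rw [hdw.e2, hdz.e2, e1, e2, e5, e6]
  rw [Finset.card_product, Finset.card_product, Finset.card_product, Finset.card_product,
    card_PF, card_PF, card_PF, card_PF, hq] at key
  calc (T.card : ℝ) ≤ ((q ^ (i + 1) * q ^ (j + 1) * (q ^ (ti + 1) * q ^ (tj + 1) *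
        (q ^ (ti + 1) * q ^ (tj + 1))) : ℕ) : ℝ) := by exact_mod_cast key
    _ = _ := by push_cast; ring

theorem sumB {q N M : ℕ} (hq : Fintype.card k = q) (h17 : 17 ≤ q) (h6 : (6 : k) ≠ 0)
    (hM : M = (N + 3) / (q - 1))
    (T : Finset (k[X] × k[X])) (x : k[X] × k[X] → Dat k)
    (hdat : ∀ w ∈ T, IsDat q N (vone w) (vtwo w) (x w))
    (hv1 : ∀ w ∈ T, (vone w).natDegree ≤ M + 2) (hv2 : ∀ w ∈ T, (vtwo w).natDegree ≤ M + 2)
    (hB : ∀ w ∈ T, (x w).n1.natDegree + q ≤ M + 2) :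
    ∑ w ∈ T, 1 / (q : ℝ) ^ ((N + 1 + (x w).n1.natDegree) / q + (N + 1 + (x w).n2.natDegree) / q) ≤
      4 / (q : ℝ) ^ 2 := by
  classical
  have hq0 : 0 < q := by omega
  have hQ : (17 : ℝ) ≤ (q : ℝ) := by exact_mod_cast h17
  have hQ0 : (0 : ℝ) < (q : ℝ) := by linarith
  set Q : ℝ := (q : ℝ) with hQdef
  have hmaps : ∀ w ∈ T, ((x w).n1.natDegree, (x w).n2.natDegree) ∈
      (range (M + 3 - q)) ×ˢ (range (M + 3)) := by
    intro w hw
    have h1 := hB w hw
    have h2 := (hdat w hw).hl2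
    have h3 := hv1 w hw
    have h4 := hv2 w hw
    rw [Finset.mem_product, Finset.mem_range, Finset.mem_range]
    constructor
    · simp only; omega
    · simp only; omega
  rw [← Finset.sum_fiberwise_of_maps_to hmaps]
  have hF : ∀ p ∈ (range (M + 3 - q)) ×ˢ (range (M + 3)),
      ∑ w ∈ T with ((x w).n1.natDegree, (x w).n2.natDegree) = p,
        1 / Q ^ ((N + 1 + (x w).n1.natDegree) / q + (N + 1 + (x w).n2.natDegree) / q) ≤
      (Q ^ 6 / Q ^ (q - 3) * (1 / Q ^ ((M + 2 - p.1 - q + 1) / 2))) *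
        (Q ^ 6 * (1 / Q ^ ((M + 2 - p.2 + 1) / 2))) := by
    rintro ⟨i, j⟩ hp
    rw [Finset.mem_product, Finset.mem_range, Finset.mem_range] at hp
    simp only at hp ⊢
    set T' := T.filter (fun w => ((x w).n1.natDegree, (x w).n2.natDegree) = (i, j)) with hT'
    have hi : ∀ w ∈ T', (x w).n1.natDegree = i := by
      intro w hw
      rw [hT', Finset.mem_filter, Prod.mk.injEq] at hw
      exact hw.2.1
    have hj : ∀ w ∈ T', (x w).n2.natDegree = j := by
      intro w hw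
      rw [hT', Finset.mem_filter, Prod.mk.injEq] at hw
      exact hw.2.2
    have hsub : ∀ w ∈ T', w ∈ T := fun w hw => (Finset.mem_filter.1 hw).1
    have hfc := fiber_card (N := N) (M := M) (i := i) (j := j) hq h17 h6 T' x
      (fun w hw => hdat w (hsub w hw))
      (fun w hw => hv1 w (hsub w hw)) (fun w hw => hv2 w (hsub w hw)) hi hj
    have hconst : ∑ w ∈ T', 1 / Q ^ ((N + 1 + (x w).n1.natDegree) / q +
        (N + 1 + (x w).n2.natDegree) / q) = (T'.card : ℝ) *
        (1 / Q ^ ((N + 1 + i) / q + (N + 1 + j) / q)) := by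
      rw [Finset.sum_congr rfl (g := fun _ => 1 / Q ^ ((N + 1 + i) / q + (N + 1 + j) / q))]
      · rw [Finset.sum_const, nsmul_eq_mul]
      · intro w hw
        rw [hi w hw, hj w hw]
    rw [hconst]
    have hEi := arith_E (q := q) (N := N) (l := i) h17 (by rw [← hM]; omega)
    have hEj := arith_E (q := q) (N := N) (l := j) h17 (by rw [← hM]; omega)
    rw [← hM] at hEi hEj
    have b1 := arith_B1 (q := q) (M := M) (l := i) (E := (N + 1 + i) / q) h17 (by omega) hEi
    have b2 := arith_B2 (q := q) (M := M) (l := j) (E := (N + 1 + j) / q) h17 (by omega) hEj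
    have c1 : Q ^ ((i + 1) + 2 * ((M + 2 - i) / q + 1)) / Q ^ ((N + 1 + i) / q) ≤
        Q ^ 6 / Q ^ (q - 3) * (1 / Q ^ ((M + 2 - i - q + 1) / 2)) := by
      rw [div_mul_div_comm, mul_one, ← pow_add, div_le_div_iff₀ (by positivity) (by positivity),
        ← pow_add, ← pow_add]
      apply pow_le_pow_right₀ (by linarith)
      omega
    have c2 : Q ^ ((j + 1) + 2 * ((M + 2 - j) / q + 1)) / Q ^ ((N + 1 + j) / q) ≤
        Q ^ 6 * (1 / Q ^ ((M + 2 - j + 1) / 2)) := by
      rw [mul_one_div, div_le_div_iff₀ (by positivity) (by positivity), ← pow_add, ← pow_add]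
      apply pow_le_pow_right₀ (by linarith)
      omega
    calc (T'.card : ℝ) * (1 / Q ^ ((N + 1 + i) / q + (N + 1 + j) / q)) ≤
        (Q ^ ((i + 1) + 2 * ((M + 2 - i) / q + 1)) *
          Q ^ ((j + 1) + 2 * ((M + 2 - j) / q + 1))) *
          (1 / Q ^ ((N + 1 + i) / q + (N + 1 + j) / q)) :=
          mul_le_mul_of_nonneg_right hfc (by positivity)
      _ = (Q ^ ((i + 1) + 2 * ((M + 2 - i) / q + 1)) / Q ^ ((N + 1 + i) / q)) *
          (Q ^ ((j + 1) + 2 * ((M + 2 - j) / q + 1)) / Q ^ ((N + 1 + j) / q)) := by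
          rw [pow_add Q ((N + 1 + i) / q)]
          field_simp
      _ ≤ _ := mul_le_mul c1 c2 (by positivity) (by positivity)
  refine (Finset.sum_le_sum hF).trans ?_
  rw [Finset.sum_product]
  simp only
  rw [← Finset.sum_mul_sum, ← Finset.mul_sum, ← Finset.mul_sum]
  have s1 : ∑ i ∈ range (M + 3 - q), 1 / Q ^ ((M + 2 - i - q + 1) / 2) ≤ 2 := by
    rw [← Finset.sum_range_reflect]
    refine le_trans (le_of_eq ?_) (sum_half Q (by linarith) (M + 3 - q))
    apply Finset.sum_congr rfl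
    intro i hi
    rw [Finset.mem_range] at hi
    congr 3
    omega
  have s2 : ∑ j ∈ range (M + 3), 1 / Q ^ ((M + 2 - j + 1) / 2) ≤ 2 := by
    rw [← Finset.sum_range_reflect]
    refine le_trans (le_of_eq ?_) (sum_half Q (by linarith) (M + 3))
    apply Finset.sum_congr rfl
    intro i hi
    rw [Finset.mem_range] at hi
    congr 3
    omega
  have h14 : Q ^ 14 ≤ Q ^ (q - 3) := pow_le_pow_right₀ (by linarith) (by omega)
  calc (Q ^ 6 / Q ^ (q - 3) * ∑ i ∈ range (M + 3 - q), 1 / Q ^ ((M + 2 - i - q + 1) / 2)) *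
      (Q ^ 6 * ∑ j ∈ range (M + 3), 1 / Q ^ ((M + 2 - j + 1) / 2)) ≤
      (Q ^ 6 / Q ^ (q - 3) * 2) * (Q ^ 6 * 2) := by
        apply mul_le_mul
        · exact mul_le_mul_of_nonneg_left s1 (by positivity)
        · exact mul_le_mul_of_nonneg_left s2 (by positivity)
        · apply mul_nonneg (by positivity)
          exact Finset.sum_nonneg (fun j _ => by positivity)
        · positivity
    _ = 4 * Q ^ 12 / Q ^ (q - 3) := by ring
    _ ≤ 4 * Q ^ 12 / Q ^ 14 := by
        apply div_le_div_of_nonneg_left (by positivity) (by positivity) h14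
    _ = 4 / Q ^ 2 := by field_simp

end Pool.Agent.Y515.Cnt
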