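import Pool.Agent.Y515.Cnt.SumA
import Pool.Agent.Y515.Cnt.SumB

/-!
The number of polynomials with a fixed vector.
-/

set_option autoImplicit false
set_option linter.unusedSectionVars false

open Polynomial Finset
open Pool.Agent.Y709

namespace Pool.Agent.Y515.Cnt

variable {k : Type} [Field k] [Fintype k]

/-- The sum over all admissible vectors. -/
theorem sum_all {q N : ℕ} (hq : Fintype.card k = q) (h17 : 17 ≤ q) (h6 : (6 : k) ≠ 0)
    (hN : 3 * q ≤ N)
    (T : Finset (k[X] × k[X])) (x : k[X] × k[X] → Dat k)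
    (hT : ∀ w ∈ T, w.1 ∈ PF k ((N + 1) / (q - 1)) ∧ w.2 ∈ PF k ((N + 3) / (q - 1)))
    (hdat : ∀ w ∈ T, IsDat q N (vone w) (vtwo w) (x w))
    (hv1 : ∀ w ∈ T, (vone w).natDegree ≤ (N + 3) / (q - 1) + 2)
    (hv2 : ∀ w ∈ T, (vtwo w).natDegree ≤ (N + 3) / (q - 1) + 2) :
    ∑ w ∈ T, 1 / (q : ℝ) ^ ((N + 1 + (x w).n1.natDegree) / q + (N + 1 + (x w).n2.natDegree) / q) ≤
      2 + 1 / (q : ℝ) + 1 / (q : ℝ) ^ 2 + 4 / (q : ℝ) ^ 2 := by
  classical
  have hQ : (17 : ℝ) ≤ (q : ℝ) := by exact_mod_cast h17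
  have hs0 : 0 < q - 1 := by omega
  set M := (N + 3) / (q - 1) with hM
  set M1 := (N + 1) / (q - 1) with hM1
  have hM3 : 3 ≤ M := by
    rw [hM, Nat.le_div_iff_mul_le hs0]; omega
  have hdiv : (q - 1) * M1 + (N + 1) % (q - 1) = N + 1 := by
    rw [hM1]; exact Nat.div_add_mod (N + 1) (q - 1)
  have hmod : (N + 1) % (q - 1) < q - 1 := Nat.mod_lt _ hs0
  set r := (N + 1) % (q - 1) with hr
  rw [← Finset.sum_filter_add_sum_filter_not T (fun w => M + 3 ≤ (x w).n1.natDegree + q)]
  apply add_le_add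
  · set TA := T.filter (fun w => M + 3 ≤ (x w).n1.natDegree + q) with hTA
    have hsub : ∀ w ∈ TA, w ∈ T ∧ M + 3 ≤ (x w).n1.natDegree + q := by
      intro w hw; rw [hTA, Finset.mem_filter] at hw; exact hw
    rcases Nat.lt_or_ge (r + 2) (q - 1) with hcase | hcase
    · have hMM : M = M1 := by
        rw [hM]
        have : N + 3 = (r + 2) + (q - 1) * M1 := by omega
        rw [this, Nat.add_mul_div_left _ _ hs0, Nat.div_eq_of_lt hcase, zero_add]
      apply sumA_i (r := r) (M := M) hq h17 h6 hM3 (by rw [hMM]; exact hdiv.symm) TA x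
      · intro w hw
        have := hT w (hsub w hw).1
        rw [← hMM] at this
        exact this
      · intro w hw; exact hdat w (hsub w hw).1
      · intro w hw; exact hv1 w (hsub w hw).1
      · intro w hw; exact hv2 w (hsub w hw).1
      · intro w hw; exact (hsub w hw).2
    · have hMM : M = M1 + 1 := by
        rw [hM]
        have : N + 3 = (r + 2 - (q - 1)) + (q - 1) * (M1 + 1) := by
          rw [Nat.mul_add, Nat.mul_one]; omega
        rw [this, Nat.add_mul_div_left _ _ hs0, Nat.div_eq_of_lt (by omega), zero_add]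
      have h1 := sumA_ii (r := r) (M := M) (N := N) hq h17 h6 hM3
        (by rw [hMM, Nat.add_sub_cancel]; exact hdiv.symm) (by omega) TA x
        (fun w hw => by
          have := hT w (hsub w hw).1
          rw [hMM, Nat.add_sub_cancel, ← hMM]
          exact this)
        (fun w hw => hdat w (hsub w hw).1)
        (fun w hw => hv1 w (hsub w hw).1)
        (fun w hw => hv2 w (hsub w hw).1)
        (fun w hw => (hsub w hw).2)
      refine h1.trans ?_
      have : 0 ≤ 1 / (q : ℝ) + 1 / (q : ℝ) ^ 2 := by positivity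
      linarith
  · apply sumB (M := M) hq h17 h6 hM
    · intro w hw
      rw [Finset.mem_filter] at hw
      exact hdat w hw.1
    · intro w hw
      rw [Finset.mem_filter] at hw
      exact hv1 w hw.1
    · intro w hw
      rw [Finset.mem_filter] at hw
      exact hv2 w hw.1
    · intro w hw
      rw [Finset.mem_filter] at hw
      omega

end Pool.Agent.Y515.Cnt

namespace Pool.Agent.Y515

open Cnt

/-- Part L2: at most `3 q ^ N` polynomials of degree at most `N` have a nonzero fixed vector. -/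
theorem cnt (k : Type) [Field k] [Fintype k] (q : ℕ) (hq : Fintype.card k = q) (h17 : 17 ≤ q)
    (h6 : (6 : k) ≠ 0) (hL : Pool.Agent.Y709.LatProp k q) : Pool.Agent.Y709.CountProp k q := by
  classical
  intro N hN
  have hq0 : 0 < q := by omega
  have hs0 : 0 < q - 1 := by omega
  have hQ : (17 : ℝ) ≤ (q : ℝ) := by exact_mod_cast h17
  have hQ0 : (0 : ℝ) < (q : ℝ) := by linarith
  set M := (N + 3) / (q - 1) with hM
  set M1 := (N + 1) / (q - 1) with hM1
  have hM1le : M1 ≤ M := Nat.div_le_div_right (by omega)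
  have hM13 : 1 ≤ M1 := by
    rw [hM1, Nat.le_div_iff_mul_le hs0]; omega
  set Bad : Finset k[X] := (PF k (N + 1)).filter (fun D => ∃ w : k[X] × k[X], w ≠ 0 ∧
    IsFixed q D w) with hBad
  have hcardBad : Nat.card {D : k[X] // D.natDegree ≤ N ∧ ∃ w : k[X] × k[X], w ≠ 0 ∧
      IsFixed q D w} = Bad.card := by
    have h0 : Nat.card {D : k[X] // D.natDegree ≤ N ∧ ∃ w : k[X] × k[X], w ≠ 0 ∧
        IsFixed q D w} = Nat.card {D : k[X] // D ∈ Bad} := by
      apply Nat.card_congr
      refine Equiv.subtypeEquivRight ?_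
      intro D
      rw [hBad, Finset.mem_filter, mem_PF_succ]
    rw [h0, Nat.card_eq_fintype_card, Fintype.card_coe]
  rw [hcardBad]
  set T : Finset (k[X] × k[X]) := ((PF k M1) ×ˢ (PF k M)).filter
    (fun w => w ≠ 0 ∧ ∃ D : k[X], D.natDegree ≤ N ∧ IsFixed q D w) with hT
  have hTmem : ∀ w ∈ T, (w.1 ∈ PF k M1 ∧ w.2 ∈ PF k M) ∧ w ≠ 0 ∧
      ∃ D : k[X], D.natDegree ≤ N ∧ IsFixed q D w := by
    intro w hw
    rw [hT, Finset.mem_filter, Finset.mem_product] at hw
    exact hw
  have hex : ∀ w ∈ T, ∃ x : Dat k, IsDat q N (vone w) (vtwo w) x := by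
    intro w hw
    obtain ⟨_, hw0, D, hD, hfix⟩ := hTmem w hw
    exact exists_dat hL N (fun a b hab => indep hq h17 h6 hw0 hfix a b hab)
  have hnonempty : Nonempty (Dat k) := ⟨⟨0, 0, 0, 0, 0, 0⟩⟩
  choose! x hx using hex
  have hdeg : ∀ w ∈ T, (vone w).natDegree ≤ M + 2 ∧ (vtwo w).natDegree ≤ M + 2 := by
    intro w hw
    obtain ⟨⟨h1, h2⟩, _⟩ := hTmem w hw
    have d1 : w.1.natDegree + 1 ≤ M1 := by
      by_cases h0 : w.1 = 0
      · rw [h0, natDegree_zero]; omega
      · exact natDegree_lt_of_mem_PF h1 h0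
    have d2 : w.2.natDegree + 1 ≤ M := by
      by_cases h0 : w.2 = 0
      · rw [h0, natDegree_zero]; omega
      · exact natDegree_lt_of_mem_PF h2 h0
    have b1 := natDegree_vone_le w
    have b2 := natDegree_vtwo_le w
    constructor
    · omega
    · omega
  have hsum := sum_all hq h17 h6 hN T x (fun w hw => (hTmem w hw).1) hx
    (fun w hw => (hdeg w hw).1) (fun w hw => (hdeg w hw).2)
  -- number of D for each w
  set cnt' : k[X] × k[X] → Finset k[X] := fun w => (PF k (N + 1)).filter (fun D => IsFixed q D w)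
    with hcnt'
  have hcntle : ∀ w ∈ T, ((cnt' w).card : ℝ) ≤ (q : ℝ) ^ (N + 1) *
      (1 / (q : ℝ) ^ ((N + 1 + (x w).n1.natDegree) / q + (N + 1 + (x w).n2.natDegree) / q)) := by
    intro w hw
    have hd := hdeg w hw
    have hxw := hx w hw
    have := count_fixed_le hq hq0 N w (x w) hxw
      (arith_e h17 hN (by have := hxw.hl1; rw [← hM]; omega) (by
        have := hxw.hl2; rw [← hM]; omega)) (cnt' w) (by
        intro D hD
        rw [hcnt', Finset.mem_filter, mem_PF_succ] at hD
        exact hD)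
    rw [mul_one_div]
    exact this
  -- double counting
  have hdouble : (q - 1) * Bad.card ≤ ∑ w ∈ T, (cnt' w).card := by
    have h1 : ∑ w ∈ T, (cnt' w).card = ∑ D ∈ PF k (N + 1), (T.filter (fun w => IsFixed q D w)).card := by
      simp only [hcnt', Finset.card_filter]
      rw [Finset.sum_comm]
    rw [h1]
    calc (q - 1) * Bad.card = ∑ D ∈ Bad, (q - 1) := by
          rw [Finset.sum_const, smul_eq_mul, mul_comm]
      _ ≤ ∑ D ∈ Bad, (T.filter (fun w => IsFixed q D w)).card := by
          apply Finset.sum_le_sum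
          intro D hD
          rw [hBad, Finset.mem_filter, mem_PF_succ] at hD
          obtain ⟨hDN, w, hw0, hfix⟩ := hD
          have hcu : (Finset.univ.filter (fun c : k => c ≠ 0)).card = q - 1 := by
            rw [Finset.filter_ne', Finset.card_erase_of_mem (Finset.mem_univ _),
              Finset.card_univ, hq]
          rw [← hcu]
          apply Finset.card_le_card_of_injOn (fun c : k => (C c * w.1, C c * w.2))
          · intro c hc
            rw [Finset.mem_coe, Finset.mem_filter] at hc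
            have hfc := isFixed_smul hq0 hfix c
            rw [Finset.mem_coe, Finset.mem_filter]
            refine ⟨?_, hfc⟩
            rw [hT, Finset.mem_filter, Finset.mem_product]
            refine ⟨fixed_bound (by omega) h6 hDN hfc, ?_, D, hDN, hfc⟩
            intro h0
            apply hw0
            rw [Prod.mk_eq_zero] at h0
            have hC : (C c : k[X]) ≠ 0 := C_ne_zero.2 hc.2
            exact Prod.ext ((mul_eq_zero.1 h0.1).resolve_left hC)
              ((mul_eq_zero.1 h0.2).resolve_left hC)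
          · intro c _ c' _ h
            simp only [Prod.mk.injEq] at h
            have hne : w.1 ≠ 0 ∨ w.2 ≠ 0 := by
              by_contra hcon
              push Not at hcon
              exact hw0 (Prod.ext hcon.1 hcon.2)
            rcases hne with h0 | h0
            · exact C_injective (mul_right_cancel₀ h0 h.1)
            · exact C_injective (mul_right_cancel₀ h0 h.2)
      _ ≤ _ := by
          apply Finset.sum_le_sum_of_subset
          exact Finset.filter_subset _ _
  have hfinal : ((q : ℝ) - 1) * (Bad.card : ℝ) ≤ (q : ℝ) ^ (N + 1) *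
      (2 + 1 / (q : ℝ) + 1 / (q : ℝ) ^ 2 + 4 / (q : ℝ) ^ 2) := by
    have h1 : (((q - 1) * Bad.card : ℕ) : ℝ) ≤ ((∑ w ∈ T, (cnt' w).card : ℕ) : ℝ) := by
      exact_mod_cast hdouble
    rw [Nat.cast_mul, Nat.cast_sub (by omega), Nat.cast_one, Nat.cast_sum] at h1
    refine h1.trans ((Finset.sum_le_sum hcntle).trans ?_)
    rw [← Finset.mul_sum]
    exact mul_le_mul_of_nonneg_left hsum (by positivity)
  have hR : (Bad.card : ℝ) ≤ 3 * (q : ℝ) ^ N := by
    have h2 : (q : ℝ) ^ (N + 1) * (2 + 1 / (q : ℝ) + 1 / (q : ℝ) ^ 2 + 4 / (q : ℝ) ^ 2) ≤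
        ((q : ℝ) - 1) * (3 * (q : ℝ) ^ N) := by
      have h3 : (q : ℝ) * (2 + 1 / (q : ℝ) + 1 / (q : ℝ) ^ 2 + 4 / (q : ℝ) ^ 2) ≤
          3 * ((q : ℝ) - 1) := by
        have e : (q : ℝ) * (2 + 1 / (q : ℝ) + 1 / (q : ℝ) ^ 2 + 4 / (q : ℝ) ^ 2) =
            2 * (q : ℝ) + 1 + 5 / (q : ℝ) := by field_simp; ring
        rw [e]
        have : 5 / (q : ℝ) ≤ 1 := by rw [div_le_one hQ0]; linarith
        linarith
      calc _ = (q : ℝ) ^ N * ((q : ℝ) * (2 + 1 / (q : ℝ) + 1 / (q : ℝ) ^ 2 +
            4 / (q : ℝ) ^ 2)) := by rw [pow_succ]; ring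
        _ ≤ (q : ℝ) ^ N * (3 * ((q : ℝ) - 1)) := mul_le_mul_of_nonneg_left h3 (by positivity)
        _ = _ := by ring
    have h4 := hfinal.trans h2
    exact le_of_mul_le_mul_left h4 (by linarith)
  exact_mod_cast hR

end Pool.Agent.Y515
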