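import Pool.Agent.Y515.Cnt.CountA

/-!
The sum over the vectors with a first minimum of normal size.
-/

set_option autoImplicit false
set_option linter.unusedSectionVars false

open Polynomial Finset
open Pool.Agent.Y709

namespace Pool.Agent.Y515.Cnt

variable {k : Type} [Field k] [Fintype k]

theorem const_of {q l m B : ℕ} {p : k[X]}
    (h : p = 0 ∨ q * p.natDegree + l ≤ m) (hm : m ≤ B) (hl : B < l + q) :
    ∃ c : k, p = C c := by
  rcases h with h | h
  · exact ⟨0, by rw [h, C_0]⟩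
  · have h0 : p.natDegree = 0 := by
      by_contra hne
      have : q * 1 ≤ q * p.natDegree := Nat.mul_le_mul_left q (by omega)
      omega
    exact ⟨p.coeff 0, eq_C_of_natDegree_eq_zero h0⟩

/-- in case A the transformation matrix is constant -/
theorem caseA_const {q N M : ℕ} {v1 v2 : k[X]} {x : Dat k}
    (hx : IsDat q N v1 v2 x) (hv1 : v1.natDegree ≤ M + 2) (hv2 : v2.natDegree ≤ M + 2)
    (hA : M + 3 ≤ x.n1.natDegree + q) :
    ∃ a b c d : k, v1 = C a * x.n1 + C b * x.n2 ∧ v2 = C c * x.n1 + C d * x.n2 ∧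
      (b ≠ 0 ∨ d ≠ 0) := by
  obtain ⟨a, ha⟩ := const_of hx.ha hv1 (by omega)
  obtain ⟨b, hb⟩ := const_of hx.hb hv1 (by have := hx.hlt; omega)
  obtain ⟨c, hc⟩ := const_of hx.hc hv2 (by omega)
  obtain ⟨d, hd⟩ := const_of hx.hd hv2 (by have := hx.hlt; omega)
  refine ⟨a, b, c, d, ?_, ?_, ?_⟩
  · rw [hx.e1, ha, hb, expand_C, expand_C]
  · rw [hx.e2, hc, hd, expand_C, expand_C]
  · rcases hx.hbd with h | h
    · left; rintro rfl; apply h; rw [hb, C_0]
    · right; rintro rfl; apply h; rw [hd, C_0]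

theorem caseA_one {q N M : ℕ} {v1 v2 : k[X]} {x : Dat k}
    (hx : IsDat q N v1 v2 x) (hv1 : v1.natDegree ≤ M + 2) (hv2 : v2.natDegree ≤ M + 2)
    (hA : M + 3 ≤ x.n1.natDegree + q) (hl : x.n1.natDegree + 1 ≤ M) :
    v1 ∈ PF k M ∨ ∃ α : k, C α * v1 + v2 ∈ PF k M := by
  obtain ⟨a, b, c, d, h1, h2, h3⟩ := caseA_const hx hv1 hv2 hA
  have hn1 : x.n1 ∈ PF k M := mem_PF_of_natDegree (fun _ => by omega)
  by_cases hb : b = 0
  · left
    rw [h1, hb, C_0, zero_mul, add_zero]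
    exact C_mul_mem_PF _ hn1
  · right
    refine ⟨-(d / b), ?_⟩
    have : C (-(d / b)) * v1 + v2 = C (c - d / b * a) * x.n1 := by
      rw [h1, h2]
      have hdb : d = d / b * b := by field_simp
      have : (C d : k[X]) = C (d / b) * C b := by rw [← C_mul, ← hdb]
      rw [this, C_neg, C_sub, C_mul]
      ring
    rw [this]
    exact C_mul_mem_PF _ hn1

theorem caseA_two {q N M B : ℕ} {v1 v2 : k[X]} {x : Dat k}
    (hx : IsDat q N v1 v2 x) (hv1 : v1.natDegree ≤ M + 2) (hv2 : v2.natDegree ≤ M + 2)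
    (hA : M + 3 ≤ x.n1.natDegree + q) (hl : x.n2.natDegree + 1 ≤ B) :
    v1 ∈ PF k B ∧ v2 ∈ PF k B := by
  obtain ⟨a, b, c, d, h1, h2, h3⟩ := caseA_const hx hv1 hv2 hA
  have hn1 : x.n1 ∈ PF k B := mem_PF_of_natDegree (fun _ => by have := hx.hlt; omega)
  have hn2 : x.n2 ∈ PF k B := mem_PF_of_natDegree (fun _ => by omega)
  constructor
  · rw [h1]; exact add_mem_PF (C_mul_mem_PF _ hn1) (C_mul_mem_PF _ hn2)
  · rw [h2]; exact add_mem_PF (C_mul_mem_PF _ hn1) (C_mul_mem_PF _ hn2)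

theorem sumA_i {q N M r : ℕ} (hq : Fintype.card k = q) (h17 : 17 ≤ q) (h6 : (6 : k) ≠ 0)
    (hM3 : 3 ≤ M) (hN : N + 1 = (q - 1) * M + r)
    (T : Finset (k[X] × k[X])) (x : k[X] × k[X] → Dat k)
    (hT : ∀ w ∈ T, w.1 ∈ PF k M ∧ w.2 ∈ PF k M)
    (hdat : ∀ w ∈ T, IsDat q N (vone w) (vtwo w) (x w))
    (hv1 : ∀ w ∈ T, (vone w).natDegree ≤ M + 2) (hv2 : ∀ w ∈ T, (vtwo w).natDegree ≤ M + 2)
    (hA : ∀ w ∈ T, M + 3 ≤ (x w).n1.natDegree + q) :
    ∑ w ∈ T, 1 / (q : ℝ) ^ ((N + 1 + (x w).n1.natDegree) / q + (N + 1 + (x w).n2.natDegree) / q) ≤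
      2 + 1 / (q : ℝ) + 1 / (q : ℝ) ^ 2 := by
  classical
  have hq0 : 0 < q := by omega
  have hQ : (17 : ℝ) ≤ (q : ℝ) := by exact_mod_cast h17
  have hQ0 : (0 : ℝ) < (q : ℝ) := by linarith
  set Q : ℝ := (q : ℝ) with hQdef
  have hqM : (q - 1) * M = q * M - M := by rw [Nat.sub_mul, one_mul]
  have hMle : M ≤ q * M := Nat.le_mul_of_pos_left M hq0
  have hE : ∀ l : ℕ, M + 3 ≤ l + q → M ≤ (N + 1 + l) / q + 1 ∧ (M ≤ l → M ≤ (N + 1 + l) / q) := by
    intro l hl
    constructor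
    · have : M - 1 ≤ (N + 1 + l) / q := by
        rw [Nat.le_div_iff_mul_le hq0]
        have h3 : (M - 1) * q = q * M - q := by rw [Nat.sub_mul, one_mul, mul_comm]
        omega
      omega
    · intro hMl
      rw [Nat.le_div_iff_mul_le hq0, mul_comm]
      omega
  have hterm : ∀ w ∈ T, 1 / Q ^ ((N + 1 + (x w).n1.natDegree) / q +
      (N + 1 + (x w).n2.natDegree) / q) ≤ (1 / Q ^ (2 * M)) *
      (1 + (if (x w).n1.natDegree + 1 ≤ M then Q else 0) +
        (if (x w).n2.natDegree + 1 ≤ M then Q ^ 2 else 0)) := by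
    intro w hw
    have hlt := (hdat w hw).hlt
    have hAw := hA w hw
    have E1 := hE (x w).n1.natDegree hAw
    have E2 := hE (x w).n2.natDegree (by omega)
    set f1 := (N + 1 + (x w).n1.natDegree) / q
    set f2 := (N + 1 + (x w).n2.natDegree) / q
    have hle1 : (1 : ℝ) ≤ Q := by linarith
    by_cases c2 : (x w).n2.natDegree + 1 ≤ M
    · have c1 : (x w).n1.natDegree + 1 ≤ M := by omega
      rw [if_pos c1, if_pos c2]
      have h1 : 1 / Q ^ (f1 + f2) ≤ 1 / Q ^ (2 * M) * Q ^ 2 := by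
        rw [one_div_mul_eq_div, div_le_div_iff₀ (by positivity) (by positivity), one_mul, ← pow_add]
        exact pow_le_pow_right₀ hle1 (by omega)
      refine h1.trans (mul_le_mul_of_nonneg_left ?_ (by positivity))
      linarith
    · rw [if_neg c2]
      by_cases c1 : (x w).n1.natDegree + 1 ≤ M
      · rw [if_pos c1]
        have h1 : 1 / Q ^ (f1 + f2) ≤ 1 / Q ^ (2 * M) * Q := by
          rw [one_div_mul_eq_div, div_le_div_iff₀ (by positivity) (by positivity), one_mul,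
            ← pow_succ']
          exact pow_le_pow_right₀ hle1 (by omega)
        refine h1.trans (mul_le_mul_of_nonneg_left ?_ (by positivity))
        linarith
      · rw [if_neg c1]
        have h1 : 1 / Q ^ (f1 + f2) ≤ 1 / Q ^ (2 * M) := by
          apply one_div_le_one_div_of_le (by positivity)
          exact pow_le_pow_right₀ hle1 (by omega)
        refine h1.trans (le_of_eq ?_)
        ring
  refine (Finset.sum_le_sum hterm).trans ?_
  rw [← Finset.mul_sum, Finset.sum_add_distrib, Finset.sum_add_distrib, Finset.sum_const,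
    nsmul_eq_mul, mul_one, ← Finset.sum_filter, ← Finset.sum_filter, Finset.sum_const,
    Finset.sum_const, nsmul_eq_mul, nsmul_eq_mul]
  set T1 := T.filter (fun w => (x w).n1.natDegree + 1 ≤ M) with hT1
  set T2 := T.filter (fun w => (x w).n2.natDegree + 1 ≤ M) with hT2
  have c0 : (T.card : ℝ) ≤ Q ^ (2 * M) := by
    have : T ⊆ (PF k M) ×ˢ (PF k M) := by
      intro w hw; rw [Finset.mem_product]; exact hT w hw
    have := Finset.card_le_card this
    rw [Finset.card_product, card_PF, ← pow_add, hq, ← two_mul] at this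
    rw [hQdef]; exact_mod_cast this
  have c1 : (T1.card : ℝ) ≤ Q ^ (2 * M - 1) + Q ^ (2 * M - 2) := by
    have := card_Sone (M := M) h6 hM3 T1 (by
      intro w hw
      rw [hT1, Finset.mem_filter] at hw
      exact ⟨(hT w hw.1).1, (hT w hw.1).2,
        caseA_one (hdat w hw.1) (hv1 w hw.1) (hv2 w hw.1) (hA w hw.1) hw.2⟩)
    rw [hq] at this
    rw [hQdef]; exact_mod_cast this
  have c2 : (T2.card : ℝ) ≤ Q ^ (2 * (M - 2)) := by
    have := card_Sboth (M := M) h6 T2 (by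
      intro w hw
      rw [hT2, Finset.mem_filter] at hw
      exact caseA_two (hdat w hw.1) (hv1 w hw.1) (hv2 w hw.1) (hA w hw.1) hw.2)
    rw [hq] at this
    rw [hQdef]; exact_mod_cast this
  obtain ⟨m, rfl⟩ : ∃ m, M = m + 3 := ⟨M - 3, by omega⟩
  have p1 : 2 * (m + 3) - 1 = 2 * m + 5 := by omega
  have p2 : 2 * (m + 3) - 2 = 2 * m + 4 := by omega
  have p3 : 2 * (m + 3 - 2) = 2 * m + 2 := by omega
  rw [p1, p2] at c1
  rw [p3] at c2
  have p0 : 2 * (m + 3) = 2 * m + 6 := by ring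
  rw [p0] at c0 ⊢
  rw [one_div_mul_eq_div, div_le_iff₀ (by positivity)]
  have expand : (2 + 1 / Q + 1 / Q ^ 2) * Q ^ (2 * m + 6) =
      Q ^ (2 * m + 6) + (Q ^ (2 * m + 5) + Q ^ (2 * m + 4)) * Q + Q ^ (2 * m + 2) * Q ^ 2 := by
    have : Q ≠ 0 := by positivity
    field_simp
    ring
  rw [expand]
  gcongr

theorem sumA_ii {q N M r : ℕ} (hq : Fintype.card k = q) (h17 : 17 ≤ q) (h6 : (6 : k) ≠ 0)
    (hM3 : 3 ≤ M) (hN : N + 1 = (q - 1) * (M - 1) + r) (hr : q ≤ r + 3)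
    (T : Finset (k[X] × k[X])) (x : k[X] × k[X] → Dat k)
    (hT : ∀ w ∈ T, w.1 ∈ PF k (M - 1) ∧ w.2 ∈ PF k M)
    (hdat : ∀ w ∈ T, IsDat q N (vone w) (vtwo w) (x w))
    (hv1 : ∀ w ∈ T, (vone w).natDegree ≤ M + 2) (hv2 : ∀ w ∈ T, (vtwo w).natDegree ≤ M + 2)
    (hA : ∀ w ∈ T, M + 3 ≤ (x w).n1.natDegree + q) :
    ∑ w ∈ T, 1 / (q : ℝ) ^ ((N + 1 + (x w).n1.natDegree) / q + (N + 1 + (x w).n2.natDegree) / q) ≤
      2 := by
  classical
  have hq0 : 0 < q := by omega
  have hQ : (17 : ℝ) ≤ (q : ℝ) := by exact_mod_cast h17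
  have hQ0 : (0 : ℝ) < (q : ℝ) := by linarith
  set Q : ℝ := (q : ℝ) with hQdef
  have hqM : (q - 1) * (M - 1) = q * (M - 1) - (M - 1) := by rw [Nat.sub_mul, one_mul]
  have hMle : (M - 1) ≤ q * (M - 1) := Nat.le_mul_of_pos_left _ hq0
  have hE : ∀ l : ℕ, M + 3 ≤ l + q → M - 1 ≤ (N + 1 + l) / q ∧
      (M + 2 ≤ l → M ≤ (N + 1 + l) / q) := by
    intro l hl
    constructor
    · rw [Nat.le_div_iff_mul_le hq0, mul_comm]
      omega
    · intro hMl
      rw [Nat.le_div_iff_mul_le hq0]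
      have h3 : M * q = q * (M - 1) + q := by
        obtain ⟨m, rfl⟩ : ∃ m, M = m + 1 := ⟨M - 1, by omega⟩
        rw [Nat.add_sub_cancel]; ring
      omega
  have hterm : ∀ w ∈ T, 1 / Q ^ ((N + 1 + (x w).n1.natDegree) / q +
      (N + 1 + (x w).n2.natDegree) / q) ≤ (1 / Q ^ (2 * M - 1)) *
      (1 + (if (x w).n2.natDegree + 1 ≤ M + 2 then Q else 0)) := by
    intro w hw
    have hlt := (hdat w hw).hlt
    have hAw := hA w hw
    have E1 := hE (x w).n1.natDegree hAw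
    have E2 := hE (x w).n2.natDegree (by omega)
    set f1 := (N + 1 + (x w).n1.natDegree) / q
    set f2 := (N + 1 + (x w).n2.natDegree) / q
    have hle1 : (1 : ℝ) ≤ Q := by linarith
    by_cases c2 : (x w).n2.natDegree + 1 ≤ M + 2
    · rw [if_pos c2]
      have h1 : 1 / Q ^ (f1 + f2) ≤ 1 / Q ^ (2 * M - 1) * Q := by
        rw [one_div_mul_eq_div, div_le_div_iff₀ (by positivity) (by positivity), one_mul,
          ← pow_succ']
        exact pow_le_pow_right₀ hle1 (by omega)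
      refine h1.trans (mul_le_mul_of_nonneg_left ?_ (by positivity))
      linarith
    · rw [if_neg c2]
      have h1 : 1 / Q ^ (f1 + f2) ≤ 1 / Q ^ (2 * M - 1) := by
        apply one_div_le_one_div_of_le (by positivity)
        exact pow_le_pow_right₀ hle1 (by omega)
      refine h1.trans (le_of_eq ?_)
      ring
  refine (Finset.sum_le_sum hterm).trans ?_
  rw [← Finset.mul_sum, Finset.sum_add_distrib, Finset.sum_const,
    nsmul_eq_mul, mul_one, ← Finset.sum_filter, Finset.sum_const, nsmul_eq_mul]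
  set T2 := T.filter (fun w => (x w).n2.natDegree + 1 ≤ M + 2) with hT2
  have c0 : (T.card : ℝ) ≤ Q ^ (2 * M - 1) := by
    have : T ⊆ (PF k (M - 1)) ×ˢ (PF k M) := by
      intro w hw; rw [Finset.mem_product]; exact hT w hw
    have := Finset.card_le_card this
    rw [Finset.card_product, card_PF, card_PF, ← pow_add, hq,
      show M - 1 + M = 2 * M - 1 by omega] at this
    rw [hQdef]; exact_mod_cast this
  have c2 : (T2.card : ℝ) ≤ Q ^ (2 * M - 2) := by
    have := card_Sii (M := M) h6 (by omega) T2 (by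
      intro w hw
      rw [hT2, Finset.mem_filter] at hw
      exact ⟨(hT w hw.1).1, (hT w hw.1).2,
        (caseA_two (hdat w hw.1) (hv1 w hw.1) (hv2 w hw.1) (hA w hw.1) hw.2).2⟩)
    rw [hq] at this
    rw [hQdef]; exact_mod_cast this
  rw [one_div_mul_eq_div, div_le_iff₀ (by positivity)]
  have expand : (2 : ℝ) * Q ^ (2 * M - 1) = Q ^ (2 * M - 1) + Q ^ (2 * M - 2) * Q := by
    rw [← pow_succ, show 2 * M - 2 + 1 = 2 * M - 1 by omega]
    ring
  rw [expand]
  gcongr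

end Pool.Agent.Y515.Cnt
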